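import Pool.Agent.Hhelper51.Cat.Defs

/-!
Project CatU: the minimum over all pairs of phylogenetic trees.
-/

set_option autoImplicit false

namespace Pool.Agent.CatU

open Pool.Agent.Hhelper51.Cat

/-- `s n k`: the minimum number of common convex partitions with `k` classes over all pairs of
phylogenetic trees. -/
noncomputable def s (n k : ℕ) : ℕ :=
  sInf {m | ∃ T F : PhyloTree n, m = T.commonCount F k}

end Pool.Agent.CatU
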