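import Pool.Agent.CatU.Sum2

/-!
Module Sum3: the terms with `16 j ≥ r` are small; the sum.
-/

set_option autoImplicit false

namespace Pool.Agent.CatU

open Finset Pool.Agent.Hhelper51.Cat

theorem exp_small (K : ℝ) (hK : 0 < K) :
    ∃ m0 : ℕ, ∀ r : ℕ, m0 ≤ r → 1 ≤ r → ((r : ℝ) + 1) ^ 3 * (K * Real.exp (-(7 / 4000 * r))) ≤ 1 / (r : ℝ) ^ 6 := by
  set q : ℝ := Real.exp (-(7 / 4000)) with hq
  have hq0 : 0 < q := Real.exp_pos _
  have hq1 : q < 1 := by
    rw [hq, ← Real.exp_zero]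
    exact Real.exp_lt_exp.2 (by norm_num)
  have h1 := tendsto_pow_const_mul_const_pow_of_abs_lt_one 9 (show |q| < 1 by rw [abs_of_pos hq0]; exact hq1)
  have h2 : ∀ᶠ r : ℕ in Filter.atTop, (r : ℝ) ^ 9 * q ^ r < 1 / (8 * K) :=
    h1.eventually (gt_mem_nhds (by positivity))
  obtain ⟨m0, hm0⟩ := Filter.eventually_atTop.1 h2
  refine ⟨m0, fun r hr hr1 => ?_⟩
  have h3 := (hm0 r hr).le
  have hr' : (1 : ℝ) ≤ r := by exact_mod_cast hr1
  have h4 : Real.exp (-(7 / 4000 * r)) = q ^ r := by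
    rw [hq, ← Real.exp_nat_mul]
    congr 1
    ring
  rw [h4, le_div_iff₀ (by positivity)]
  have h5 : ((r : ℝ) + 1) ^ 3 ≤ (2 * r) ^ 3 := pow_le_pow_left₀ (by positivity) (by linarith) 3
  rw [le_div_iff₀ (by positivity)] at h3
  have hqr : 0 < q ^ r := pow_pos hq0 r
  calc ((r : ℝ) + 1) ^ 3 * (K * q ^ r) * (r : ℝ) ^ 6 ≤ (2 * r) ^ 3 * (K * q ^ r) * (r : ℝ) ^ 6 := by
        gcongr
    _ = (r : ℝ) ^ 9 * q ^ r * (8 * K) := by ring
    _ ≤ 1 := h3

theorem tm_large : ∃ m0 : ℕ, ∀ r : ℕ, m0 ≤ r → 1 ≤ r → ∀ n : ℕ, n ≤ r ^ 2 → ∀ j : ℕ, 1 ≤ j →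
    r ≤ 16 * j → j ≤ r → tm n r j ≤ (n.choose (r + 1) : ℝ) * (1 / (r : ℝ) ^ 6) := by
  set η : ℝ := 1 / 1000 with hη
  set q : ℝ := Real.exp (-(1 / 1000)) with hq
  have hη0 : 0 < η := by rw [hη]; norm_num
  have hq0 : 0 < q := Real.exp_pos _
  have hq1 : q < 1 := by
    rw [hq, ← Real.exp_zero]
    exact Real.exp_lt_exp.2 (by norm_num)
  have hlq : Real.log q = -(1 / 1000) := by rw [hq, Real.log_exp]
  set K : ℝ := Real.exp (uaC q / η + 2) with hK
  obtain ⟨m0, hm0⟩ := exp_small K (Real.exp_pos _)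
  refine ⟨m0, fun r hr hr1 n hn j hj hrj hjr => ?_⟩
  obtain ⟨d, hd⟩ : ∃ d, r - j = d := ⟨_, rfl⟩
  have hjd : (j : ℝ) + d = r := by exact_mod_cast (by omega : j + d = r)
  have hr0 : (0 : ℝ) < r := by exact_mod_cast hr1
  have hfp : (0 : ℝ) < ((r + j).factorial : ℝ) := by exact_mod_cast Nat.factorial_pos _
  -- first step
  have h1 : ((n.choose (r + j) : ℝ)) * ((r + j).factorial : ℝ) ≤
      (n : ℝ) ^ (j - 1) * (((r + 1).factorial : ℝ) * (n.choose (r + 1) : ℝ)) := by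
    exact_mod_cast choose_mul_le n r j hj
  have h2 : tm n r j ≤ (n.choose (r + 1) : ℝ) * ((n : ℝ) ^ (j - 1) * ((r + 1).factorial : ℝ) *
      (1 / ((r + j).factorial : ℝ)) * (1 / ((r + j).factorial : ℝ)) *
      ((j.factorial : ℝ) * (Tsum j d : ℝ))) := by
    unfold tm
    rw [hd]
    have e1 : (n.choose (r + j) : ℝ) * ((j.factorial : ℝ) * (Tsum j d : ℝ)) / ((r + j).factorial : ℝ) =
        ((n.choose (r + j) : ℝ) * ((r + j).factorial : ℝ)) * ((1 / ((r + j).factorial : ℝ)) *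
        (1 / ((r + j).factorial : ℝ)) * ((j.factorial : ℝ) * (Tsum j d : ℝ))) := by
      field_simp
    have e2 : (n.choose (r + 1) : ℝ) * ((n : ℝ) ^ (j - 1) * ((r + 1).factorial : ℝ) *
        (1 / ((r + j).factorial : ℝ)) * (1 / ((r + j).factorial : ℝ)) *
        ((j.factorial : ℝ) * (Tsum j d : ℝ))) =
        ((n : ℝ) ^ (j - 1) * (((r + 1).factorial : ℝ) * (n.choose (r + 1) : ℝ))) *
        ((1 / ((r + j).factorial : ℝ)) * (1 / ((r + j).factorial : ℝ)) *
        ((j.factorial : ℝ) * (Tsum j d : ℝ))) := by ring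
    rw [e1, e2]
    exact mul_le_mul_of_nonneg_right h1 (by positivity)
  refine h2.trans ?_
  apply mul_le_mul_of_nonneg_left _ (Nat.cast_nonneg _)
  refine le_trans ?_ (hm0 r hr hr1)
  -- the factors
  have f1 : (n : ℝ) ^ (j - 1) ≤ Real.exp (2 * j * Real.log r) := by
    have g1 : (n : ℝ) ≤ (r : ℝ) ^ 2 := by exact_mod_cast hn
    have g2 : (1 : ℝ) ≤ (r : ℝ) ^ 2 := by
      have : (1 : ℝ) ≤ r := by exact_mod_cast hr1
      nlinarith
    have g3 : Real.exp (2 * j * Real.log r) = ((r : ℝ) ^ 2) ^ j := by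
      rw [← pow_mul, ← Real.rpow_natCast, Real.rpow_def_of_pos hr0]
      congr 1
      push_cast
      ring
    rw [g3]
    calc (n : ℝ) ^ (j - 1) ≤ ((r : ℝ) ^ 2) ^ (j - 1) := pow_le_pow_left₀ (Nat.cast_nonneg _) g1 _
      _ ≤ ((r : ℝ) ^ 2) ^ j := pow_le_pow_right₀ g2 (by omega)
  have f2 : ((r + 1).factorial : ℝ) ≤ ((r : ℝ) + 1) * (((r : ℝ) + 1) * Real.exp (r * Real.log r - r + 1)) := by
    rw [Nat.factorial_succ]
    push_cast
    exact mul_le_mul_of_nonneg_left (ua_factorial_le_exp r) (by positivity)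
  have hm : ((r + j : ℕ) : ℝ) = r + j := by push_cast; ring
  have f3 := ua_inv_factorial_le_exp (r + j)
  rw [hm] at f3
  have f4 := ua_factorial_le_exp j
  have f5 := ua_tsum_bound q η hq0 hq1 hη0 r j d hr1 hjr
  have f6 := ua_real (97 / 100) (by norm_num) (by
      have h3 := Real.exp_one_lt_d9
      have h4 := Real.exp_pos 1
      nlinarith) (r / (97 / 100)) r j d (by positivity) (by field_simp) hr0 (Nat.cast_nonneg _)
      (Nat.cast_nonneg _) hjd
  have hlN : Real.log ((r : ℝ) / (97 / 100)) = Real.log r - Real.log (97 / 100) :=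
    Real.log_div hr0.ne' (by norm_num)
  rw [hlN] at f6
  have hy : Real.log (97 / 100) ≤ -(3 / 100) := by
    have := Real.log_le_sub_one_of_pos (show (0 : ℝ) < 97 / 100 by norm_num)
    linarith
  have hj16 : (r : ℝ) ≤ 16 * j := by exact_mod_cast hrj
  have hjr' : (j : ℝ) ≤ r := by exact_mod_cast hjr
  have hd0 : (0 : ℝ) ≤ d := Nat.cast_nonneg _
  have hj0 : (0 : ℝ) ≤ j := Nat.cast_nonneg _
  have key : ∀ a b c e g u v : ℝ, Real.exp a * (u * (u * Real.exp b)) * Real.exp c * Real.exp c *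
      ((v * Real.exp e) * Real.exp g) = u ^ 2 * v * Real.exp (a + b + c + c + e + g) := by
    intro a b c e g u v
    rw [Real.exp_add, Real.exp_add, Real.exp_add, Real.exp_add, Real.exp_add]
    ring
  have hexp : 2 * j * Real.log r + (r * Real.log r - r + 1) +
        (r + j - (r + j) * Real.log (r + j)) + (r + j - (r + j) * Real.log (r + j)) +
        (j * Real.log j - j + 1) +
        (j * Real.log 2 + d * Real.log d - d - d * Real.log q + η * r + uaC q / η) ≤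
        uaC q / η + 2 + -(7 / 4000 * r) := by
    have e1 : (d : ℝ) ≤ r := by linarith
    have e2 : 2 * (j : ℝ) * Real.log (97 / 100) ≤ 2 * j * (-(3 / 100)) :=
      mul_le_mul_of_nonneg_left hy (by positivity)
    have e3 : η * (r : ℝ) = 1 / 1000 * r := by rw [hη]
    have e4 : (d : ℝ) * Real.log q = -(1 / 1000 * d) := by rw [hlq]; ring
    rw [e3, e4]
    linarith
  calc (n : ℝ) ^ (j - 1) * ((r + 1).factorial : ℝ) * (1 / ((r + j).factorial : ℝ)) *
        (1 / ((r + j).factorial : ℝ)) * ((j.factorial : ℝ) * (Tsum j d : ℝ))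
      ≤ Real.exp (2 * j * Real.log r) *
        (((r : ℝ) + 1) * (((r : ℝ) + 1) * Real.exp (r * Real.log r - r + 1))) *
        Real.exp (r + j - (r + j) * Real.log (r + j)) *
        Real.exp (r + j - (r + j) * Real.log (r + j)) *
        ((((j : ℝ) + 1) * Real.exp (j * Real.log j - j + 1)) *
          Real.exp (j * Real.log 2 + d * Real.log d - d - d * Real.log q + η * r + uaC q / η)) := by
        gcongr
    _ = ((r : ℝ) + 1) ^ 2 * ((j : ℝ) + 1) * Real.exp (2 * j * Real.log r + (r * Real.log r - r + 1) +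
        (r + j - (r + j) * Real.log (r + j)) + (r + j - (r + j) * Real.log (r + j)) +
        (j * Real.log j - j + 1) +
        (j * Real.log 2 + d * Real.log d - d - d * Real.log q + η * r + uaC q / η)) := by
        exact key _ _ _ _ _ _ _
    _ ≤ ((r : ℝ) + 1) ^ 2 * ((r : ℝ) + 1) * Real.exp (uaC q / η + 2 + -(7 / 4000 * r)) := by
        apply mul_le_mul _ (Real.exp_le_exp.2 hexp) (Real.exp_pos _).le (by positivity)
        exact mul_le_mul_of_nonneg_left (by linarith) (by positivity)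
    _ = ((r : ℝ) + 1) ^ 3 * (K * Real.exp (-(7 / 4000 * r))) := by
        rw [Real.exp_add, hK]
        ring

theorem tm_sum : ∃ m0 : ℕ, ∀ r : ℕ, m0 ≤ r → ∀ n : ℕ, 1 ≤ n → n ≤ r ^ 2 →
    ∑ j ∈ range (r + 1), tm n r j ≤
      (n.choose (r + 1) : ℝ) * (1 + 14 * n / (r : ℝ) ^ 3 + 294 * (n : ℝ) ^ 2 / (r : ℝ) ^ 5) := by
  obtain ⟨m0, hm0⟩ := tm_large
  refine ⟨m0 + 3, fun r hr n hn hnr => ?_⟩
  have hr0 : (0 : ℝ) < r := by exact_mod_cast (by omega : 0 < r)
  have hn' : (1 : ℝ) ≤ n := by exact_mod_cast hn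
  have hC : (0 : ℝ) ≤ (n.choose (r + 1) : ℝ) := Nat.cast_nonneg _
  obtain ⟨s, hs⟩ : ∃ s, r + 1 = s + 1 + 1 + 1 := ⟨r - 2, by omega⟩
  have hterm : ∀ j, 3 ≤ j → j ≤ r → tm n r j ≤ (n.choose (r + 1) : ℝ) * (294 * (n : ℝ) ^ 2 / (r : ℝ) ^ 6) := by
    intro j h3 hj
    rcases le_total (16 * j) r with h | h
    · refine (tm_le n r j (by omega)).trans ?_
      apply mul_le_mul_of_nonneg_left _ hC
      exact (A_small hn hnr j h3 h).trans (A_three n r (by omega))
    · refine (hm0 r (by omega) (by omega) n hnr j (by omega) h hj).trans ?_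
      apply mul_le_mul_of_nonneg_left _ hC
      apply div_le_div_of_nonneg_right _ (by positivity)
      nlinarith
  rw [hs, sum_range_succ', sum_range_succ', sum_range_succ', tm_zero n r (by omega), add_zero]
  have h1 : tm n r (0 + 1) = n.choose (r + 1) := tm_one n r (by omega)
  have h2 : tm n r (0 + 1 + 1) ≤ (n.choose (r + 1) : ℝ) * (14 * n / (r : ℝ) ^ 3) := by
    refine (tm_le n r 2 (by omega)).trans ?_
    exact mul_le_mul_of_nonneg_left (A_two n r (by omega)) hC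
  have h3 : ∑ j ∈ range s, tm n r (j + 1 + 1 + 1) ≤
      (n.choose (r + 1) : ℝ) * (294 * (n : ℝ) ^ 2 / (r : ℝ) ^ 5) := by
    calc ∑ j ∈ range s, tm n r (j + 1 + 1 + 1)
        ≤ ∑ _j ∈ range s, (n.choose (r + 1) : ℝ) * (294 * (n : ℝ) ^ 2 / (r : ℝ) ^ 6) := by
          refine sum_le_sum fun j hj => ?_
          rw [mem_range] at hj
          exact hterm _ (by omega) (by omega)
      _ = (s : ℝ) * ((n.choose (r + 1) : ℝ) * (294 * (n : ℝ) ^ 2 / (r : ℝ) ^ 6)) := by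
          rw [sum_const, card_range, nsmul_eq_mul]
      _ ≤ (r : ℝ) * ((n.choose (r + 1) : ℝ) * (294 * (n : ℝ) ^ 2 / (r : ℝ) ^ 6)) := by
          have : (s : ℝ) ≤ r := by exact_mod_cast (by omega : s ≤ r)
          gcongr
      _ = _ := by field_simp
  rw [h1]
  have h4 : r + 1 = s + 1 + 1 + 1 := hs
  rw [← h4]
  linarith

end Pool.Agent.CatU
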