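import Pool.Agent.CatU.TreeLow
import Pool.Agent.CatU.Sum3
import Pool.Agent.Hhelper51.Cat.FirstMoment

/-!
Module Mono: bounds for `x k = s n k` and `x k = c n k` and the monotonicity.
-/

set_option autoImplicit false

namespace Pool.Agent.CatU

open Finset Pool.Agent.Hhelper51.Cat

/-- The error term. -/
noncomputable def er (n r : ℕ) : ℝ := 14 * n / (r : ℝ) ^ 3 + 294 * (n : ℝ) ^ 2 / (r : ℝ) ^ 5

theorem c_upper : ∃ m0 : ℕ, ∀ r : ℕ, m0 ≤ r → ∀ n : ℕ, 3 ≤ n → n ≤ r ^ 2 → r < n →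
    (c n (n - r) : ℝ) ≤ (n.choose (r + 1) : ℝ) * (1 + er n r) := by
  obtain ⟨m0, hm0⟩ := tm_sum
  refine ⟨m0 + 1, fun r hr n hn hnr hrn => ?_⟩
  obtain ⟨σ, hσ⟩ := first_moment (n := n) (r := r) (by omega) hrn
  have h1 : (c n (n - r) : ℝ) ≤ ((common 1 σ (n - r)).card : ℝ) := by
    exact_mod_cast c_le hn σ (n - r)
  have h2 := hm0 r (by omega) n (by omega) hnr
  unfold tm at h2
  refine h1.trans (hσ.trans (h2.trans (le_of_eq ?_)))
  unfold er
  ring

/-- `x` is one of the two sequences (for the purposes of the bounds). -/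
structure Bd (n m0 : ℕ) (x : ℕ → ℕ) : Prop where
  low : ∀ r : ℕ, 1 ≤ r → n.choose (r + 1) ≤ x (n - r)
  up : ∀ r : ℕ, m0 ≤ r → n ≤ r ^ 2 → r < n → (x (n - r) : ℝ) ≤ (n.choose (r + 1) : ℝ) * (1 + er n r)

theorem er_bound {n r : ℕ} (hr : 2 ≤ r) :
    er n r * ((r : ℝ) + 2) ≤ 28 * (n / (r : ℝ) ^ 2) + 588 * (n / (r : ℝ) ^ 2) ^ 2 := by
  have hr' : (2 : ℝ) ≤ r := by exact_mod_cast hr
  have hr0 : (0 : ℝ) < r := by linarith
  have h0 : (0 : ℝ) ≤ n := Nat.cast_nonneg n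
  unfold er
  have h1 : 28 * ((n : ℝ) / (r : ℝ) ^ 2) + 588 * ((n : ℝ) / (r : ℝ) ^ 2) ^ 2 =
      (14 * n / (r : ℝ) ^ 3 + 294 * (n : ℝ) ^ 2 / (r : ℝ) ^ 5) * (2 * r) := by
    field_simp
    ring
  rw [h1]
  apply mul_le_mul_of_nonneg_left (by linarith) (by positivity)

/-- `2 k ≤ n`: the sequence increases from `k` to `k + 1`. -/
theorem incr {n m0 : ℕ} {x : ℕ → ℕ} (hx : Bd n m0 x) (hn : 1000 ≤ n) (hm : 2 * m0 ≤ n) {k : ℕ}
    (hk : 1 ≤ k) (hkn : 2 * k ≤ n) : x k ≤ x (k + 1) := by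
  obtain ⟨r, hr⟩ : ∃ r, r = n - k := ⟨_, rfl⟩
  have hkr : k = n - r := by omega
  have h1 : k + 1 = n - (r - 1) := by omega
  have hsq : n ≤ r ^ 2 := by
    have g1 : 2 * r ≤ r * r := Nat.mul_le_mul_right r (by omega)
    have g2 : r ^ 2 = r * r := by ring
    omega
  have h2 := hx.up r (by omega) hsq (by omega)
  have h3 := hx.low (r - 1) (by omega)
  have e1 : r - 1 + 1 = r := by omega
  rw [e1, ← h1] at h3
  rw [← hkr] at h2
  have h4 : (x k : ℝ) ≤ (x (k + 1) : ℝ) := by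
    refine h2.trans (le_trans ?_ (by exact_mod_cast h3 : (n.choose r : ℝ) ≤ (x (k + 1) : ℝ)))
    have h5 : n.choose (r + 1) * (r + 1) = n.choose r * (n - r) := Nat.choose_succ_right_eq n r
    have h6 : (n.choose (r + 1) : ℝ) * ((r : ℝ) + 1) = (n.choose r : ℝ) * (k : ℝ) := by
      rw [← hkr] at h5
      exact_mod_cast h5
    have hr0 : (0 : ℝ) < (r : ℝ) + 1 := by positivity
    have h7 : er n r * ((r : ℝ) + 2) ≤ 1 := by
      refine (er_bound (by omega)).trans ?_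
      have hn' : (1000 : ℝ) ≤ n := by exact_mod_cast hn
      have h8 : (n : ℝ) / (r : ℝ) ^ 2 ≤ 4 / n := by
        have h9 : (n : ℝ) ≤ 2 * r := by exact_mod_cast (by omega : n ≤ 2 * r)
        have h10 : (0 : ℝ) < r := by linarith
        rw [div_le_div_iff₀ (by positivity) (by positivity)]
        nlinarith
      have h11 : (4 : ℝ) / n ≤ 4 / 1000 := by
        apply div_le_div_of_nonneg_left (by norm_num) (by norm_num) hn'
      have h12 : (n : ℝ) / (r : ℝ) ^ 2 ≤ 4 / 1000 := h8.trans h11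
      have h13 : (0 : ℝ) ≤ (n : ℝ) / (r : ℝ) ^ 2 := by positivity
      nlinarith
    have h14 : 0 ≤ er n r := by unfold er; positivity
    have h15 : (1 + er n r) * (k : ℝ) ≤ (r : ℝ) + 1 := by
      have h16 : (k : ℝ) ≤ r := by exact_mod_cast (by omega : k ≤ r)
      nlinarith
    have h17 : (n.choose (r + 1) : ℝ) * (1 + er n r) * ((r : ℝ) + 1) ≤ (n.choose r : ℝ) * ((r : ℝ) + 1) := by
      calc (n.choose (r + 1) : ℝ) * (1 + er n r) * ((r : ℝ) + 1)
          = ((n.choose (r + 1) : ℝ) * ((r : ℝ) + 1)) * (1 + er n r) := by ring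
        _ = (n.choose r : ℝ) * ((1 + er n r) * (k : ℝ)) := by rw [h6]; ring
        _ ≤ _ := mul_le_mul_of_nonneg_left h15 (Nat.cast_nonneg _)
    exact le_of_mul_le_mul_right h17 hr0
  exact_mod_cast h4

/-- `n + 2 ≤ 2 k`, `n ≤ (n - k - 1) ^ 2`: the sequence decreases from `k` to `k + 1`. -/
theorem decr {n m0 : ℕ} {x : ℕ → ℕ} (hx : Bd n m0 x) (hn : 3000 ≤ n) (hm : m0 ^ 2 ≤ n) {k : ℕ}
    (hk : n + 2 ≤ 2 * k) (hkn : k + 1 ≤ n) (hw : n ≤ (n - (k + 1)) ^ 2) : x (k + 1) ≤ x k := by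
  obtain ⟨m, hm'⟩ : ∃ m, m = n - (k + 1) := ⟨_, rfl⟩
  rw [← hm'] at hw
  have hkm : k + 1 = n - m := by omega
  have hk2 : k = n - (m + 1) := by omega
  have hm54 : 54 ≤ m := by
    by_contra hcon
    push Not at hcon
    have : m ^ 2 ≤ 53 ^ 2 := Nat.pow_le_pow_left (by omega) 2
    omega
  have hm0m : m0 ≤ m := by
    by_contra hcon
    push Not at hcon
    have : m ^ 2 < m0 ^ 2 := Nat.pow_lt_pow_left hcon (by norm_num)
    omega
  have h2 := hx.up m hm0m hw (by omega)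
  have h3 := hx.low (m + 1) (by omega)
  rw [← hk2] at h3
  rw [← hkm] at h2
  have h4 : (x (k + 1) : ℝ) ≤ (x k : ℝ) := by
    refine h2.trans (le_trans ?_ (by exact_mod_cast h3 : (n.choose (m + 1 + 1) : ℝ) ≤ (x k : ℝ)))
    have h5 : n.choose (m + 1 + 1) * (m + 1 + 1) = n.choose (m + 1) * (n - (m + 1)) :=
      Nat.choose_succ_right_eq n (m + 1)
    have h6 : (n.choose (m + 1 + 1) : ℝ) * ((m : ℝ) + 2) = (n.choose (m + 1) : ℝ) * (k : ℝ) := by
      rw [← hk2] at h5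
      have : ((m + 1 + 1 : ℕ) : ℝ) = (m : ℝ) + 2 := by push_cast; ring
      rw [← this]
      exact_mod_cast h5
    have hm0' : (0 : ℝ) < (m : ℝ) + 2 := by positivity
    have h7 : er n m * ((m : ℝ) + 2) ≤ (k : ℝ) - m - 2 := by
      refine (er_bound (by omega)).trans ?_
      have hn' : (3000 : ℝ) ≤ n := by exact_mod_cast hn
      have hmpos : (0 : ℝ) < m := by exact_mod_cast (by omega : 0 < m)
      have h13 : (0 : ℝ) ≤ (n : ℝ) / (m : ℝ) ^ 2 := by positivity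
      rcases le_total (4 * m) n with h | h
      · have h8 : (n : ℝ) / (m : ℝ) ^ 2 ≤ 1 := by
          rw [div_le_one (by positivity)]
          exact_mod_cast hw
        have h9 : (n : ℝ) ≤ 2 * ((k : ℝ) - m) + 2 := by
          have : n ≤ 2 * (k - m) + 2 := by omega
          have h10 : ((k - m : ℕ) : ℝ) = (k : ℝ) - m := by
            rw [Nat.cast_sub (by omega)]
          rw [← h10]
          exact_mod_cast this
        nlinarith
      · have h8 : (n : ℝ) / (m : ℝ) ^ 2 ≤ 16 / n := by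
          have h9 : (n : ℝ) ≤ 4 * m := by exact_mod_cast h
          rw [div_le_div_iff₀ (by positivity) (by positivity)]
          nlinarith
        have h11 : (16 : ℝ) / n ≤ 16 / 3000 := by
          apply div_le_div_of_nonneg_left (by norm_num) (by norm_num) hn'
        have h12 : (n : ℝ) / (m : ℝ) ^ 2 ≤ 16 / 3000 := h8.trans h11
        have h14 : (1 : ℝ) ≤ (k : ℝ) - m - 2 := by
          have : m + 3 ≤ k := by omega
          have h15 : ((m + 3 : ℕ) : ℝ) ≤ k := by exact_mod_cast this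
          push_cast at h15
          linarith
        nlinarith
    have h17 : (n.choose (m + 1) : ℝ) * (1 + er n m) * ((m : ℝ) + 2) ≤
        (n.choose (m + 1 + 1) : ℝ) * ((m : ℝ) + 2) := by
      rw [h6, mul_assoc]
      apply mul_le_mul_of_nonneg_left _ (Nat.cast_nonneg _)
      nlinarith
    exact le_of_mul_le_mul_right h17 hm0'
  exact_mod_cast h4

end Pool.Agent.CatU
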