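import Pool.Agent.CatU.TsumB
import Pool.Agent.Hhelper51.Cat.UpperAsymp

/-!
Module Sum: the terms of the first moment bound are at most `C(n, r + 1) A n r j`, and
`j ↦ A n r j` is log-convex.
-/

set_option autoImplicit false

namespace Pool.Agent.CatU

open Finset Pool.Agent.Hhelper51.Cat

/-- The terms of the first moment bound. -/
noncomputable def tm (n r j : ℕ) : ℝ :=
  (n.choose (r + j) : ℝ) * (j.factorial * Tsum j (r - j)) / ((r + j).factorial : ℝ)

/-- The majorant. -/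
noncomputable def A (n r j : ℕ) : ℝ :=
  (n : ℝ) ^ (j - 1) * ((r + 1).factorial : ℝ) * (j.factorial : ℝ) * 7 ^ (j - 1) *
    ((r - j + 2).factorial : ℝ) / ((r + j).factorial : ℝ) ^ 2

theorem A_pos {n : ℕ} (hn : 1 ≤ n) (r j : ℕ) : 0 < A n r j := by
  have h0 : (0 : ℝ) < n := by exact_mod_cast hn
  have h1 : (0 : ℝ) < ((r + 1).factorial : ℝ) := by exact_mod_cast Nat.factorial_pos _
  have h2 : (0 : ℝ) < (j.factorial : ℝ) := by exact_mod_cast Nat.factorial_pos _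
  have h3 : (0 : ℝ) < ((r - j + 2).factorial : ℝ) := by exact_mod_cast Nat.factorial_pos _
  have h4 : (0 : ℝ) < ((r + j).factorial : ℝ) := by exact_mod_cast Nat.factorial_pos _
  unfold A
  positivity

theorem choose_mul_le (n r j : ℕ) (hj : 1 ≤ j) :
    n.choose (r + j) * (r + j).factorial ≤ n ^ (j - 1) * ((r + 1).factorial * n.choose (r + 1)) := by
  have h1 := Nat.descFactorial_mul_descFactorial (n := n) (k := r + 1) (m := r + j) (by omega)
  rw [Nat.descFactorial_eq_factorial_mul_choose n (r + j),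
    Nat.descFactorial_eq_factorial_mul_choose n (r + 1)] at h1
  rw [mul_comm, ← h1]
  apply Nat.mul_le_mul_right
  have h2 : r + j - (r + 1) = j - 1 := by omega
  rw [h2]
  exact (Nat.descFactorial_le_pow _ _).trans (Nat.pow_le_pow_left (Nat.sub_le _ _) _)

theorem tm_le (n r j : ℕ) (hj : 1 ≤ j) : tm n r j ≤ (n.choose (r + 1) : ℝ) * A n r j := by
  have h1 : ((n.choose (r + j) : ℝ)) * ((r + j).factorial : ℝ) ≤
      (n : ℝ) ^ (j - 1) * (((r + 1).factorial : ℝ) * (n.choose (r + 1) : ℝ)) := by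
    exact_mod_cast choose_mul_le n r j hj
  have h2 : (Tsum j (r - j) : ℝ) ≤ 7 ^ (j - 1) * ((r - j + 2).factorial : ℝ) := by
    obtain ⟨i, rfl⟩ : ∃ i, j = i + 1 := ⟨j - 1, by omega⟩
    have := Tsum_le i (r - (i + 1))
    rw [Nat.add_sub_cancel]
    exact_mod_cast this
  have h4 : (0 : ℝ) < ((r + j).factorial : ℝ) := by exact_mod_cast Nat.factorial_pos _
  unfold tm A
  rw [div_le_iff₀ h4]
  have h5 : (n.choose (r + 1) : ℝ) * ((n : ℝ) ^ (j - 1) * ((r + 1).factorial : ℝ) *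
      (j.factorial : ℝ) * 7 ^ (j - 1) * ((r - j + 2).factorial : ℝ) / ((r + j).factorial : ℝ) ^ 2) *
      ((r + j).factorial : ℝ) = ((n : ℝ) ^ (j - 1) * (((r + 1).factorial : ℝ) * (n.choose (r + 1) : ℝ)) *
      ((j.factorial : ℝ) * (7 ^ (j - 1) * ((r - j + 2).factorial : ℝ)))) / ((r + j).factorial : ℝ) := by
    field_simp
  rw [h5, le_div_iff₀ h4]
  calc (n.choose (r + j) : ℝ) * ((j.factorial : ℝ) * (Tsum j (r - j) : ℝ)) * ((r + j).factorial : ℝ)
      = ((n.choose (r + j) : ℝ) * ((r + j).factorial : ℝ)) *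
        ((j.factorial : ℝ) * (Tsum j (r - j) : ℝ)) := by ring
    _ ≤ ((n : ℝ) ^ (j - 1) * (((r + 1).factorial : ℝ) * (n.choose (r + 1) : ℝ))) *
        ((j.factorial : ℝ) * (7 ^ (j - 1) * ((r - j + 2).factorial : ℝ))) := by
        gcongr

theorem A_succ (n r j : ℕ) (hj : 1 ≤ j) (hjr : j + 1 ≤ r) :
    A n r (j + 1) * (((r : ℝ) - j + 2) * ((r : ℝ) + j + 1) ^ 2) = A n r j * (7 * n * (j + 1)) := by
  obtain ⟨i, rfl⟩ : ∃ i, j = i + 1 := ⟨j - 1, by omega⟩
  obtain ⟨d, rfl⟩ : ∃ d, r = i + 1 + 1 + d := ⟨r - (i + 1 + 1), by omega⟩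
  unfold A
  have e1 : i + 1 + 1 - 1 = i + 1 := by omega
  have e2 : i + 1 - 1 = i := by omega
  have e3 : i + 1 + 1 + d - (i + 1 + 1) + 2 = d + 2 := by omega
  have e4 : i + 1 + 1 + d - (i + 1) + 2 = (d + 2) + 1 := by omega
  have e5 : i + 1 + 1 + d + (i + 1 + 1) = (i + 1 + 1 + d + (i + 1)) + 1 := by omega
  rw [e1, e2, e3, e4, e5, Nat.factorial_succ (d + 2), Nat.factorial_succ (i + 1 + 1 + d + (i + 1)),
    Nat.factorial_succ (i + 1)]
  have h4 : ((i + 1 + 1 + d + (i + 1)).factorial : ℝ) ≠ 0 := by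
    exact_mod_cast Nat.factorial_ne_zero _
  push_cast
  have h5 : (i : ℝ) + 1 + 1 + d + (i + 1) + 1 ≠ 0 := by positivity
  field_simp
  ring

theorem A_conv (n r j : ℕ) (hn : 1 ≤ n) (hj : 1 ≤ j) (hjr : j + 2 ≤ r) :
    A n r (j + 1) ^ 2 ≤ A n r j * A n r (j + 2) := by
  have h1 := A_succ n r j hj (by omega)
  have h2 := A_succ n r (j + 1) (by omega) (by omega)
  have hn' : (0 : ℝ) < n := by exact_mod_cast hn
  have hj' : (1 : ℝ) ≤ j := by exact_mod_cast hj
  obtain ⟨t, ht⟩ : ∃ t, r = j + 2 + t := ⟨r - (j + 2), by omega⟩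
  have hr : (r : ℝ) = j + 2 + t := by rw [ht]; push_cast; ring
  have ht0 : (0 : ℝ) ≤ t := Nat.cast_nonneg t
  set D0 : ℝ := ((r : ℝ) - j + 2) * ((r : ℝ) + j + 1) ^ 2 with hD0
  set D1 : ℝ := ((r : ℝ) - ((j + 1 : ℕ) : ℝ) + 2) * ((r : ℝ) + ((j + 1 : ℕ) : ℝ) + 1) ^ 2 with hD1
  set N0 : ℝ := 7 * (n : ℝ) * (j + 1) with hN0
  set N1 : ℝ := 7 * (n : ℝ) * (((j + 1 : ℕ) : ℝ) + 1) with hN1
  have hD1p : 0 < D1 := by
    rw [hD1, hr]
    push_cast
    have e : (j : ℝ) + 2 + t - (j + 1) + 2 = t + 3 := by ring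
    rw [e]
    positivity
  have hN0p : 0 < N0 := by rw [hN0]; positivity
  have hpoly : N0 * D1 ≤ N1 * D0 := by
    rw [hN0, hD1, hN1, hD0, hr]
    push_cast
    have h3 : 0 ≤ 4 * (j : ℝ) ^ 3 + 4 * j ^ 2 * t + 3 * j * t ^ 2 + t ^ 3 + 20 * j ^ 2 + 21 * j * t +
        9 * t ^ 2 + 36 * j + 26 * t + 24 := by positivity
    have h4 : 7 * (n : ℝ) * ((j : ℝ) + 1 + 1) * (((j : ℝ) + 2 + t - j + 2) * ((j : ℝ) + 2 + t + j + 1) ^ 2) -
        7 * (n : ℝ) * ((j : ℝ) + 1) * (((j : ℝ) + 2 + t - (j + 1) + 2) * ((j : ℝ) + 2 + t + (j + 1) + 1) ^ 2) =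
        7 * (n : ℝ) * (4 * (j : ℝ) ^ 3 + 4 * j ^ 2 * t + 3 * j * t ^ 2 + t ^ 3 + 20 * j ^ 2 + 21 * j * t +
        9 * t ^ 2 + 36 * j + 26 * t + 24) := by ring
    have h5 : 0 ≤ 7 * (n : ℝ) * (4 * (j : ℝ) ^ 3 + 4 * j ^ 2 * t + 3 * j * t ^ 2 + t ^ 3 + 20 * j ^ 2 +
        21 * j * t + 9 * t ^ 2 + 36 * j + 26 * t + 24) := by positivity
    linarith
  have h6 : A n r (j + 1) ^ 2 * (N0 * D1) ≤ (A n r j * A n r (j + 2)) * (N0 * D1) := by
    have h7 : (A n r j * A n r (j + 2)) * (N0 * D1) = A n r (j + 1) ^ 2 * (N1 * D0) := by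
      calc (A n r j * A n r (j + 2)) * (N0 * D1) = (A n r j * N0) * (A n r (j + 1 + 1) * D1) := by ring
        _ = (A n r (j + 1) * D0) * (A n r (j + 1) * N1) := by rw [h1, h2]
        _ = _ := by ring
    rw [h7]
    exact mul_le_mul_of_nonneg_left hpoly (sq_nonneg _)
  exact le_of_mul_le_mul_right h6 (mul_pos hN0p hD1p)

theorem ends {a : ℕ → ℝ} (ha : ∀ j, 0 < a j) (s r : ℕ) (hsr : s ≤ r)
    (h : ∀ j, s ≤ j → j + 2 ≤ r → a (j + 1) ^ 2 ≤ a j * a (j + 2)) :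
    ∀ j, s ≤ j → j ≤ r → a j ≤ max (a s) (a r) := by
  induction r, hsr using Nat.le_induction with
  | base =>
    intro j h1 h2
    have : j = s := le_antisymm h2 h1
    rw [this]
    exact le_max_left _ _
  | succ r hsr ih =>
    have ih' := ih (fun j h1 h2 => h j h1 (by omega))
    intro j h1 h2
    rcases Nat.lt_or_ge r j with hj | hj
    · have : j = r + 1 := by omega
      rw [this]
      exact le_max_right _ _
    · have h3 := ih' j h1 hj
      have h4 : a r ≤ max (a s) (a (r + 1)) := by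
        rcases Nat.eq_or_lt_of_le hsr with hs | hs
        · rw [hs]
          exact le_max_left _ _
        · obtain ⟨i, rfl⟩ : ∃ i, r = i + 1 := ⟨r - 1, by omega⟩
          have h5 := h i (by omega) (by omega)
          have h6 := ih' i (by omega) (by omega)
          rcases le_total (a s) (a (i + 1)) with h7 | h7
          · rw [max_eq_right h7] at h6
            have h8 : a (i + 1) ^ 2 ≤ a (i + 1) * a (i + 2) :=
              h5.trans (mul_le_mul_of_nonneg_right h6 (ha _).le)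
            rw [sq] at h8
            have h9 := le_of_mul_le_mul_left h8 (ha (i + 1))
            exact h9.trans (le_max_right _ _)
          · exact h7.trans (le_max_left _ _)
      exact h3.trans (max_le (le_max_left _ _) h4)

end Pool.Agent.CatU
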