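import Pool.Agent.CatU.Sum

/-!
Module Sum2: for `n ≤ r ^ 2` and large `r` the first moment bound is at most
`C(n, r + 1) (1 + 14 n / r ^ 3 + 294 n ^ 2 / r ^ 5)`.
-/

set_option autoImplicit false

namespace Pool.Agent.CatU

open Finset Pool.Agent.Hhelper51.Cat

theorem tm_zero (n r : ℕ) (hr : 1 ≤ r) : tm n r 0 = 0 := by
  unfold tm
  rw [Tsum_zero, if_neg (by omega)]
  simp

theorem tm_one (n r : ℕ) (hr : 1 ≤ r) : tm n r 1 = n.choose (r + 1) := by
  unfold tm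
  rw [Tsum_one]
  have h1 : r - 1 + 2 = r + 1 := by omega
  rw [h1]
  have h4 : ((r + 1).factorial : ℝ) ≠ 0 := by exact_mod_cast Nat.factorial_ne_zero _
  field_simp
  simp

theorem A_two (n r : ℕ) (hr : 2 ≤ r) : A n r 2 ≤ 14 * n / (r : ℝ) ^ 3 := by
  have hr0 : (0 : ℝ) < r := by exact_mod_cast (by omega : 0 < r)
  have h0 : (0 : ℝ) ≤ n := Nat.cast_nonneg n
  unfold A
  have e1 : r - 2 + 2 = r := by omega
  have e2 : (r + 2).factorial = (r + 2) * ((r + 1) * r.factorial) := by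
    rw [Nat.factorial_succ, Nat.factorial_succ]
  rw [e1, e2, Nat.factorial_succ r]
  have h4 : (0 : ℝ) < (r.factorial : ℝ) := by exact_mod_cast Nat.factorial_pos _
  push_cast
  have e3 : (n : ℝ) ^ (2 - 1) * (((r : ℝ) + 1) * (r.factorial : ℝ)) * 2 * 7 ^ (2 - 1) * (r.factorial : ℝ) /
      (((r : ℝ) + 2) * (((r : ℝ) + 1) * (r.factorial : ℝ))) ^ 2 =
      14 * n / (((r : ℝ) + 2) ^ 2 * ((r : ℝ) + 1)) := by
    have e4 : 2 - 1 = 1 := rfl
    rw [e4, pow_one, pow_one]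
    field_simp
    ring
  simp only [Nat.factorial, Nat.cast_ofNat] at *
  norm_num at *
  rw [e3]
  apply div_le_div_of_nonneg_left (by positivity) (by positivity)
  nlinarith [sq_nonneg (r : ℝ), mul_pos hr0 hr0]

theorem A_three (n r : ℕ) (hr : 3 ≤ r) : A n r 3 ≤ 294 * (n : ℝ) ^ 2 / (r : ℝ) ^ 6 := by
  have hr0 : (0 : ℝ) < r := by exact_mod_cast (by omega : 0 < r)
  unfold A
  obtain ⟨s, rfl⟩ : ∃ s, r = s + 1 := ⟨r - 1, by omega⟩
  have e1 : s + 1 - 3 + 2 = s := by omega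
  have e2 : (s + 1 + 3).factorial = (s + 1 + 3) * ((s + 1 + 2) * ((s + 1 + 1).factorial)) := by
    rw [Nat.factorial_succ, Nat.factorial_succ]
  have e3 : (s + 1 + 1).factorial = (s + 1 + 1) * ((s + 1) * s.factorial) := by
    rw [Nat.factorial_succ, Nat.factorial_succ]
  have e5 : (3 : ℕ).factorial = 6 := rfl
  have e6 : 3 - 1 = 2 := rfl
  rw [e1, e2, e3, e5, e6]
  have h4 : (0 : ℝ) < (s.factorial : ℝ) := by exact_mod_cast Nat.factorial_pos _
  push_cast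
  have e4 : (n : ℝ) ^ 2 * (((s : ℝ) + 1 + 1) * (((s : ℝ) + 1) * (s.factorial : ℝ))) * 6 * 7 ^ 2 *
      (s.factorial : ℝ) /
      (((s : ℝ) + 1 + 3) * (((s : ℝ) + 1 + 2) * (((s : ℝ) + 1 + 1) * (((s : ℝ) + 1) *
        (s.factorial : ℝ))))) ^ 2 =
      294 * (n : ℝ) ^ 2 / (((s : ℝ) + 1 + 3) ^ 2 * ((s : ℝ) + 1 + 2) ^ 2 *
        (((s : ℝ) + 1 + 1) * ((s : ℝ) + 1))) := by
    field_simp
    ring
  rw [e4]
  apply div_le_div_of_nonneg_left (by positivity) (by positivity)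
  have h5 : (0 : ℝ) ≤ s := Nat.cast_nonneg s
  have h6 : ((s : ℝ) + 1) ^ 6 = ((s : ℝ) + 1) ^ 2 * ((s : ℝ) + 1) ^ 2 * (((s : ℝ) + 1) * ((s : ℝ) + 1)) := by
    ring
  rw [h6]
  gcongr <;> linarith

theorem A_small {n r : ℕ} (hn : 1 ≤ n) (hnr : n ≤ r ^ 2) (j : ℕ) (hj : 3 ≤ j) (hjr : 16 * j ≤ r) :
    A n r j ≤ A n r 3 := by
  induction j, hj using Nat.le_induction with
  | base => exact le_refl _
  | succ j hj ih =>
    refine le_trans ?_ (ih (by omega))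
    have h1 := A_succ n r j (by omega) (by omega)
    have hA := A_pos hn r j
    have hj' : (3 : ℝ) ≤ j := by exact_mod_cast hj
    have hr' : 16 * (j : ℝ) + 16 ≤ r := by
      have : ((16 * (j + 1) : ℕ) : ℝ) ≤ r := by exact_mod_cast hjr
      push_cast at this
      linarith
    have hn' : (n : ℝ) ≤ (r : ℝ) ^ 2 := by exact_mod_cast hnr
    have h2 : 7 * (n : ℝ) * (j + 1) ≤ ((r : ℝ) - j + 2) * ((r : ℝ) + j + 1) ^ 2 := by
      have h3 : 7 * ((j : ℝ) + 1) ≤ (r : ℝ) - j + 2 := by linarith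
      have h4 : (r : ℝ) ^ 2 ≤ ((r : ℝ) + j + 1) ^ 2 := by
        apply pow_le_pow_left₀ (Nat.cast_nonneg r)
        linarith
      calc 7 * (n : ℝ) * (j + 1) = (7 * ((j : ℝ) + 1)) * n := by ring
        _ ≤ ((r : ℝ) - j + 2) * ((r : ℝ) + j + 1) ^ 2 := by
            apply mul_le_mul h3 (hn'.trans h4) (Nat.cast_nonneg n)
            linarith
    have hD : 0 < ((r : ℝ) - j + 2) * ((r : ℝ) + j + 1) ^ 2 := by
      apply mul_pos
      · linarith
      · apply pow_pos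
        linarith
    have h5 : A n r (j + 1) * (((r : ℝ) - j + 2) * ((r : ℝ) + j + 1) ^ 2) ≤
        A n r j * (((r : ℝ) - j + 2) * ((r : ℝ) + j + 1) ^ 2) := by
      rw [h1]
      exact mul_le_mul_of_nonneg_left h2 hA.le
    exact le_of_mul_le_mul_right h5 hD

end Pool.Agent.CatU
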