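import Pool.Agent.CatU.Defs
import Pool.Agent.Hhelper51.Cat.Final1

/-!
Module TreeLow: `C(n, r + 1) ≤ s n (n - r) ≤ c n (n - r)`.
-/

set_option autoImplicit false

namespace Pool.Agent.CatU

open Finset Pool.Agent.Hhelper51.Cat

variable {n : ℕ}

theorem span_singleton {T : PhyloTree n} {c : Fin n} {v : T.V} (hv : v ∈ T.span {c}) :
    v = T.leaf c := by
  obtain ⟨a, ha, b, hb, p, hp, hvp⟩ := hv
  rw [mem_singleton] at ha hb
  subst ha
  subst hb
  rw [SimpleGraph.Walk.isPath_iff_eq_nil] at hp
  subst hp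
  simpa using hvp

theorem mem_span_leaf {T : PhyloTree n} {B : Finset (Fin n)} {c : Fin n}
    (h : T.leaf c ∈ T.span B) : c ∈ B := by
  obtain ⟨a, ha, b, hb, p, hp, hv⟩ := h
  rcases TB.leaf_mem p hp hv with rfl | rfl <;> assumption

theorem disj_singleton (T : PhyloTree n) {B : Finset (Fin n)} {c : Fin n} (h : c ∉ B) :
    Disjoint (T.span B) (T.span {c}) := by
  rw [Set.disjoint_left]
  intro v h1 h2
  rw [span_singleton h2] at h1
  exact h (mem_span_leaf h1)

theorem complete_convex (T : PhyloTree n) (A : Finset (Fin n))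
    (h2 : ∀ C ∈ ({A} : Finset (Finset (Fin n))), 2 ≤ C.card)
    (hd : ∀ C ∈ ({A} : Finset (Finset (Fin n))), ∀ C' ∈ ({A} : Finset (Finset (Fin n))), C ≠ C' →
      Disjoint C C') : T.Convex (complete {A} h2 hd) := by
  have hs : ∀ C ∈ (complete {A} h2 hd).parts, C = A ∨ ∃ c, C = {c} := by
    intro C hC
    rw [complete_parts, mem_union, mem_image] at hC
    rcases hC with hC | ⟨c, _, hc⟩
    · exact Or.inl (mem_singleton.1 hC)
    · exact Or.inr ⟨c, hc.symm⟩
  intro B hB C hC hne
  have hdis := (complete {A} h2 hd).disjoint hB hC hne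
  rcases hs C hC with hC' | ⟨c, rfl⟩
  · rcases hs B hB with hB' | ⟨b, rfl⟩
    · exact absurd (hB'.trans hC'.symm) hne
    · refine (disj_singleton T (B := C) (c := b) ?_).symm
      intro hb
      exact disjoint_left.1 hdis (mem_singleton_self b) hb
  · refine disj_singleton T (B := B) (c := c) ?_
    intro hc
    exact disjoint_left.1 hdis hc (mem_singleton_self c)

theorem choose_le_commonCount (T F : PhyloTree n) (r : ℕ) (hr : 1 ≤ r) :
    n.choose (r + 1) ≤ T.commonCount F (n - r) := by
  classical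
  have h : (powersetCard (r + 1) (univ : Finset (Fin n))).card = n.choose (r + 1) := by
    rw [card_powersetCard, card_univ, Fintype.card_fin]
  rw [← h, commonCount_eq]
  have hok : ∀ A ∈ powersetCard (r + 1) (univ : Finset (Fin n)),
      (∀ C ∈ ({A} : Finset (Finset (Fin n))), 2 ≤ C.card) ∧
      (∀ C ∈ ({A} : Finset (Finset (Fin n))), ∀ C' ∈ ({A} : Finset (Finset (Fin n))), C ≠ C' →
        Disjoint C C') := by
    intro A hA
    rw [mem_powersetCard] at hA
    constructor
    · intro C hC; rw [mem_singleton] at hC; subst hC; omega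
    · intro C hC C' hC' hne
      rw [mem_singleton] at hC hC'
      subst hC; subst hC'; exact absurd rfl hne
  apply card_le_card_of_injOn
    (fun A => if hA : A ∈ powersetCard (r + 1) (univ : Finset (Fin n)) then
      complete {A} (hok A hA).1 (hok A hA).2 else (⊥ : Finpartition (univ : Finset (Fin n))))
  · intro A hA
    rw [mem_coe] at hA
    simp only [hA, dif_pos]
    rw [mem_coe, mem_filter]
    have hc := complete_card {A} (hok A hA).1 (hok A hA).2
    rw [sum_singleton, card_singleton] at hc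
    rw [mem_powersetCard] at hA
    refine ⟨mem_univ _, by omega, ?_, ?_⟩
    · exact complete_convex T A _ _
    · exact complete_convex F A _ _
  · intro A hA A' hA' heq
    rw [mem_coe] at hA hA'
    simp only [hA, hA', dif_pos] at heq
    have h1 := complete_filter {A} (hok A hA).1 (hok A hA).2
    have h2 := complete_filter {A'} (hok A' hA').1 (hok A' hA').2
    rw [heq, h2] at h1
    exact (singleton_injective h1).symm

theorem choose_le_s (hn : 3 ≤ n) (r : ℕ) (hr : 1 ≤ r) : n.choose (r + 1) ≤ s n (n - r) := by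
  obtain ⟨T0, _, _⟩ := exists_caterpillar hn (1 : Equiv.Perm (Fin n))
  have hne : {m | ∃ T F : PhyloTree n, m = T.commonCount F (n - r)}.Nonempty := ⟨_, T0, T0, rfl⟩
  obtain ⟨T, F, heq⟩ := Nat.sInf_mem hne
  have heq' : s n (n - r) = T.commonCount F (n - r) := heq
  rw [heq']
  exact choose_le_commonCount T F r hr

theorem s_le_c (hn : 3 ≤ n) (k : ℕ) : s n k ≤ c n k := by
  obtain ⟨T0, hT0, _⟩ := exists_caterpillar hn (1 : Equiv.Perm (Fin n))
  have hne : {m | ∃ T F : PhyloTree n, T.IsCaterpillar ∧ F.IsCaterpillar ∧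
      m = T.commonCount F k}.Nonempty := ⟨_, T0, T0, hT0, hT0, rfl⟩
  obtain ⟨T, F, _, _, heq⟩ := Nat.sInf_mem hne
  have heq' : c n k = T.commonCount F k := heq
  rw [heq']
  exact Nat.sInf_le ⟨T, F, rfl⟩

end Pool.Agent.CatU
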