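import Pool.Agent.Hhelper51.Cat.Box

/-!
Project CatU (MP_7af81b_co, unimodality of `s_(n,k)` and `c_(n,k)` for `k ≤ n - 2 sqrt n`).

Module TsumB: `Tsum (j + 1) d ≤ 7 ^ j (d + 2)!`.
-/

set_option autoImplicit false

namespace Pool.Agent.CatU

open Finset Pool.Agent.Hhelper51.Cat

/-- The sum over two blocks. -/
def T2 (d : ℕ) : ℕ := ∑ e ∈ range (d + 1), (e + 2).factorial * (d - e + 2).factorial

theorem T2_succ (d : ℕ) : 2 * T2 (d + 1) = 4 * (d + 3).factorial + (d + 6) * T2 d := by
  have h1 : T2 (d + 1) = ∑ e ∈ range (d + 1), ((e + 2).factorial * (d - e + 2).factorial) * (d - e + 3) +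
      (d + 3).factorial * 2 := by
    unfold T2
    rw [sum_range_succ]
    congr 1
    · refine sum_congr rfl fun e he => ?_
      have he' : e ≤ d := by rw [mem_range] at he; omega
      have h2 : d + 1 - e + 2 = (d - e + 2) + 1 := by omega
      have h3 : (d - e + 2 + 1).factorial = (d - e + 2 + 1) * (d - e + 2).factorial :=
        Nat.factorial_succ _
      rw [h2, h3]
      ring
    · have h2 : d + 1 - (d + 1) + 2 = 2 := by omega
      rw [h2]
      rfl
  have h2 : ∑ e ∈ range (d + 1), ((e + 2).factorial * (d - e + 2).factorial) * (d - e + 3) =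
      ∑ e ∈ range (d + 1), ((e + 2).factorial * (d - e + 2).factorial) * (e + 3) := by
    rw [← sum_range_reflect (fun e => ((e + 2).factorial * (d - e + 2).factorial) * (d - e + 3)) (d + 1)]
    refine sum_congr rfl fun e he => ?_
    have he' : e ≤ d := by rw [mem_range] at he; omega
    have h3 : d + 1 - 1 - e = d - e := by omega
    have h4 : d - (d - e) = e := by omega
    simp only [h3, h4]
    ring
  have h3 : ∑ e ∈ range (d + 1), ((e + 2).factorial * (d - e + 2).factorial) * (d - e + 3) +
      ∑ e ∈ range (d + 1), ((e + 2).factorial * (d - e + 2).factorial) * (e + 3) = (d + 6) * T2 d := by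
    rw [← sum_add_distrib]
    unfold T2
    rw [mul_sum]
    refine sum_congr rfl fun e he => ?_
    have he' : e ≤ d := by rw [mem_range] at he; omega
    rw [← mul_add]
    have h4 : d - e + 3 + (e + 3) = d + 6 := by omega
    rw [h4]
    ring
  rw [h1]
  omega

theorem T2_le (d : ℕ) : T2 d ≤ 7 * (d + 2).factorial := by
  by_cases hd : d < 4
  · interval_cases d <;> decide
  · push Not at hd
    induction d, hd using Nat.le_induction with
    | base => decide
    | succ d hd ih =>
      have h1 := T2_succ d
      have h2 : (d + 3).factorial = (d + 3) * (d + 2).factorial := Nat.factorial_succ _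
      have h3 : (d + 6) * T2 d ≤ (d + 6) * (7 * (d + 2).factorial) := Nat.mul_le_mul_left _ ih
      have h4 : (d + 6) * (7 * (d + 2).factorial) ≤ 10 * (d + 3).factorial := by
        rw [h2, ← mul_assoc, ← mul_assoc]
        apply Nat.mul_le_mul_right
        omega
      have h5 : d + 1 + 2 = d + 3 := by omega
      rw [h5]
      omega

theorem Tsum_succ (j d : ℕ) :
    Tsum (j + 1) d = ∑ e ∈ range (d + 1), (e + 2).factorial * Tsum j (d - e) := by
  unfold Tsum
  rw [← sum_fiberwise_of_maps_to (s := Finset.piAntidiag (univ : Finset (Fin (j + 1))) d)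
    (t := range (d + 1)) (g := fun f => f 0)]
  · refine sum_congr rfl fun e he => ?_
    have he' : e ≤ d := by rw [mem_range] at he; omega
    rw [mul_sum]
    refine sum_nbij' (fun f => Fin.tail f) (fun g => Fin.cons e g) ?_ ?_ ?_ ?_ ?_
    · intro f hf
      rw [mem_filter, mem_piAntidiag] at hf
      rw [mem_piAntidiag]
      refine ⟨?_, fun i _ => mem_univ i⟩
      have h1 := hf.1.1
      rw [Fin.sum_univ_succ, hf.2] at h1
      show ∑ i : Fin j, f (Fin.succ i) = d - e
      omega
    · intro g hg
      rw [mem_piAntidiag] at hg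
      rw [mem_filter, mem_piAntidiag]
      refine ⟨⟨?_, fun i _ => mem_univ i⟩, ?_⟩
      · rw [Fin.sum_univ_succ]
        simp only [Fin.cons_zero, Fin.cons_succ]
        rw [hg.1]
        omega
      · simp only [Fin.cons_zero]
    · intro f hf
      rw [mem_filter] at hf
      rw [← hf.2]
      exact Fin.cons_self_tail f
    · intro g _
      funext i
      rfl
    · intro f hf
      rw [mem_filter] at hf
      rw [Fin.prod_univ_succ, hf.2]
      rfl
  · intro f hf
    rw [mem_piAntidiag] at hf
    rw [mem_range]
    have h1 : f 0 ≤ ∑ i, f i := single_le_sum (fun _ _ => Nat.zero_le _) (mem_univ 0)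
    rw [hf.1] at h1
    omega

theorem Tsum_zero (d : ℕ) : Tsum 0 d = if d = 0 then 1 else 0 := by
  unfold Tsum
  by_cases hd : d = 0
  · subst hd
    simp
  · rw [if_neg hd]
    have h1 : (univ : Finset (Fin 0)) = ∅ := univ_eq_empty
    rw [h1, piAntidiag_empty_of_ne_zero hd, sum_empty]

theorem Tsum_one (d : ℕ) : Tsum 1 d = (d + 2).factorial := by
  rw [Tsum_succ, sum_eq_single d]
  · rw [Tsum_zero]
    simp
  · intro e he hne
    have he' : e ≤ d := by rw [mem_range] at he; omega
    rw [Tsum_zero, if_neg (by omega), mul_zero]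
  · intro h
    exact absurd (mem_range.2 (by omega)) h

theorem Tsum_le (j d : ℕ) : Tsum (j + 1) d ≤ 7 ^ j * (d + 2).factorial := by
  induction j generalizing d with
  | zero =>
    rw [zero_add, Tsum_one, pow_zero, one_mul]
  | succ j ih =>
    rw [Tsum_succ]
    calc ∑ e ∈ range (d + 1), (e + 2).factorial * Tsum (j + 1) (d - e)
        ≤ ∑ e ∈ range (d + 1), (e + 2).factorial * (7 ^ j * (d - e + 2).factorial) :=
          sum_le_sum fun e _ => Nat.mul_le_mul_left _ (ih (d - e))
      _ = 7 ^ j * T2 d := by
          unfold T2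
          rw [mul_sum]
          exact sum_congr rfl fun e _ => by ring
      _ ≤ 7 ^ j * (7 * (d + 2).factorial) := Nat.mul_le_mul_left _ (T2_le d)
      _ = 7 ^ (j + 1) * (d + 2).factorial := by ring

end Pool.Agent.CatU
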